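import Pool.Agent.K3h8.GG.Stm3

/-!
# GG3 brick PINJ: the polynomial determines the function
-/

set_option autoImplicit false

open MvPolynomial Pool.Agent.K3h8.GG

namespace Pool.Agent.K3h27.GG

variable {k d : ℕ}

/-- the words of pairs of letters -/
abbrev W (k d : ℕ) := Fin k → Fin (d + 1) × Fin (d + 1)

/-- swap at the block `j` -/
def sw (j : Fin k) (v : W k d) : W k d := Function.update v j (v j).swap

theorem sw_sw (j : Fin k) : Function.Involutive (sw (d := d) j) := by
  intro v
  unfold sw
  simp

/-- the mixed product -/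
noncomputable def P (s : Finset (Fin k)) (v : W k d) : MvPolynomial (Fin (d + 1) × Fin (d + 1)) ℚ :=
  ∏ i, if i ∈ s then AX (v i) else X (v i)

theorem P_insert (s : Finset (Fin k)) (j : Fin k) (hj : j ∉ s) (v : W k d) :
    P (insert j s) v = P s v - P s (sw j v) := by
  unfold P
  rw [← Finset.mul_prod_erase _ _ (Finset.mem_univ j),
    ← Finset.mul_prod_erase (a := j) (f := fun i => if i ∈ s then AX (v i) else X (v i)) _
      (Finset.mem_univ j),
    ← Finset.mul_prod_erase (a := j) (f := fun i => if i ∈ s then AX (sw j v i) else X (sw j v i)) _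
      (Finset.mem_univ j)]
  have e1 : ∏ i ∈ Finset.univ.erase j, (if i ∈ insert j s then AX (v i) else X (v i)) =
      ∏ i ∈ Finset.univ.erase j, (if i ∈ s then AX (v i) else X (v i)) := by
    apply Finset.prod_congr rfl
    intro i hi
    have hij : i ≠ j := Finset.ne_of_mem_erase hi
    by_cases h : i ∈ s
    · rw [if_pos h, if_pos (Finset.mem_insert_of_mem h)]
    · rw [if_neg h, if_neg (fun h' => (Finset.mem_insert.1 h').elim hij h)]
  have e2 : ∏ i ∈ Finset.univ.erase j, (if i ∈ s then AX (sw j v i) else X (sw j v i)) =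
      ∏ i ∈ Finset.univ.erase j, (if i ∈ s then AX (v i) else X (v i)) := by
    apply Finset.prod_congr rfl
    intro i hi
    have hij : i ≠ j := Finset.ne_of_mem_erase hi
    have : sw j v i = v i := Function.update_of_ne hij _ _
    rw [this]
  have e3 : sw j v j = (v j).swap := Function.update_self _ _ _
  rw [e1, e2, if_pos (Finset.mem_insert_self j s), if_neg hj, if_neg hj, e3]
  unfold AX
  ring

theorem sum_P (F : W k d → ℚ) (hF : Sk F) (s : Finset (Fin k)) :
    ∑ v, C (F v) * P s v = (2 : MvPolynomial (Fin (d + 1) × Fin (d + 1)) ℚ) ^ s.card *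
      ∑ v, C (F v) * P ∅ v := by
  induction s using Finset.induction with
  | empty => simp
  | insert j s hj ih =>
    have h1 : ∑ v, C (F v) * P s (sw j v) = - ∑ v, C (F v) * P s v := by
      rw [← Equiv.sum_comp (Function.Involutive.toPerm (sw j) (sw_sw j))
        (fun v => C (F v) * P s (sw j v)),
        ← Finset.sum_neg_distrib]
      apply Finset.sum_congr rfl
      intro v _
      have h2 : Function.Involutive.toPerm (sw j) (sw_sw j) v = sw j v := rfl
      rw [h2, sw_sw j v]
      have h3 : F (sw j v) = - F v := hF.1 v j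
      rw [h3, C_neg, neg_mul]
    have h4 : ∑ v, C (F v) * P (insert j s) v =
        ∑ v, C (F v) * P s v - ∑ v, C (F v) * P s (sw j v) := by
      rw [← Finset.sum_sub_distrib]
      exact Finset.sum_congr rfl fun v _ => by rw [P_insert s j hj v, mul_sub]
    rw [h4, h1, ih, Finset.card_insert_of_notMem hj, pow_succ]
    ring

/-- the content of a word -/
noncomputable def ct (v : W k d) : (Fin (d + 1) × Fin (d + 1)) →₀ ℕ := ∑ i, Finsupp.single (v i) 1

theorem P_empty (v : W k d) : P ∅ v = monomial (ct v) 1 := by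
  unfold P ct
  rw [monomial_sum_one]
  exact Finset.prod_congr rfl fun i _ => by rw [if_neg (Finset.notMem_empty i)]; rfl

theorem ct_apply (v : W k d) (z : Fin (d + 1) × Fin (d + 1)) :
    ct v z = Fintype.card {i // v i = z} := by
  unfold ct
  rw [Finsupp.finsetSum_apply, Fintype.card_subtype, Finset.card_filter]
  exact Finset.sum_congr rfl fun i _ => by rw [Finsupp.single_apply]

theorem ct_eq {v w : W k d} (h : ct v = ct w) : ∃ σ : Equiv.Perm (Fin k), v = w ∘ σ := by
  have e : ∀ z, Nonempty ({i // v i = z} ≃ {i // w i = z}) := by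
    intro z
    rw [← Fintype.card_eq, ← ct_apply, ← ct_apply, h]
  refine ⟨Equiv.ofFiberEquiv fun z => (e z).some, ?_⟩
  funext i
  exact (Equiv.ofFiberEquiv_map _ i).symm

theorem t_PINJ : S_PINJ := by
  intro k d F hF h
  have h1 : ∑ v, C (F v) * P (Finset.univ) v = 0 := by
    rw [← h]
    apply Finset.sum_congr rfl
    intro v _
    unfold P
    simp
  rw [sum_P F hF] at h1
  have h2 : ∑ v, C (F v) * P ∅ v = 0 := by
    rcases mul_eq_zero.1 h1 with h | h
    · exact absurd h (pow_ne_zero _ two_ne_zero)
    · exact h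
  funext w
  have h3 := congrArg (coeff (ct w)) h2
  rw [coeff_sum, coeff_zero] at h3
  have h4 : ∀ v : W k d, coeff (ct w) (C (F v) * P ∅ v) = if ct v = ct w then F w else 0 := by
    intro v
    rw [P_empty, coeff_C_mul, coeff_monomial]
    by_cases h5 : ct v = ct w
    · obtain ⟨σ, h6⟩ := ct_eq h5
      rw [if_pos h5, if_pos h5, mul_one, h6, hF.2 w σ]
    · rw [if_neg h5, if_neg h5, mul_zero]
  rw [Finset.sum_congr rfl fun v _ => h4 v, ← Finset.sum_filter, Finset.sum_const, nsmul_eq_mul]
    at h3
  rcases mul_eq_zero.1 h3 with h5 | h5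
  · exfalso
    rw [Nat.cast_eq_zero, Finset.card_eq_zero] at h5
    have : w ∈ Finset.univ.filter (fun v : W k d => ct v = ct w) :=
      Finset.mem_filter.2 ⟨Finset.mem_univ _, rfl⟩
    rw [h5] at this
    exact Finset.notMem_empty _ this
  · exact h5

end Pool.Agent.K3h27.GG
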